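import Pool.Agent.K4H80.BF.All
import Pool.Agent.TH288.BF.Round

set_option autoImplicit false

/-!
# Beck–Fiala: `O(√t log (2 + s / t))` for sets of size at most `s`, for any number of points

There is an absolute constant `C` such that every set system of maximum degree at most `t` in which
every set has at most `s` elements, with any number of points and sets, has discrepancy at most
`C √t log (2 + s / t)`; more generally every point of the cube `[-1,1]^n` can be rounded to a
colouring with this error in all sets.

Proof. The phases of the starting file `LongSets` (a variational inequality with a Gaussian input,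
and the local lemma) are run with two changes. First, as long as some sets have more than `t`
uncoloured elements, every row of the incidence matrix is repeated four times and the barrier is
put at constant width; the stiffness of the potential then makes every row sum a Lipschitz function
of the input although the rows have large norm, and every set moves by only `O(√t)` while
the number of uncoloured elements in the longest sets falls by a constant factor. Secondly, nearly
coloured elements are rounded in every phase, so that in a phase in which the rows have mass at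
most `S` only polynomially many (in `S t`) elements of every set are uncoloured; the failure
probabilities are `exp (-c S t)`, and so the local lemma applies to sets of any size.
-/

open Finset

namespace Pool.Agent.Results.MP_e8ee11_co.LogOfSetSize

open Pool.Agent.K4H80.BF

theorem log_two_lower : (1 / 2 : ℝ) ≤ Real.log 2 := by
  have h := Real.one_sub_inv_le_log_of_pos (show (0 : ℝ) < 2 by norm_num)
  norm_num at h ⊢
  linarith

theorem result :
    ∃ C : ℝ, 0 < C ∧ ∀ (n m t s : ℕ) (S : Fin m → Finset (Fin n)) (x₀ : Fin n → ℝ), 1 ≤ t →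
      (∀ i : Fin n, (univ.filter (fun j : Fin m => i ∈ S j)).card ≤ t) →
      (∀ j : Fin m, (S j).card ≤ s) → (∀ i : Fin n, |x₀ i| ≤ 1) →
      ∃ χ : Fin n → ℤ, (∀ i, χ i = 1 ∨ χ i = -1) ∧
        ∀ j : Fin m, |∑ i ∈ S j, ((χ i : ℝ) - x₀ i)| ≤
          C * Real.sqrt t * Real.log (2 + (s : ℝ) / t) := by
  classical
  obtain ⟨C, t0, hC, ht0, hmain⟩ := main5
  refine ⟨3 * C + 4 * t0, by positivity, fun n m t s S x₀ ht hdeg hsize hx => ?_⟩
  have htr : (1 : ℝ) ≤ t := by exact_mod_cast ht
  have htp : (0 : ℝ) < t := by linarith
  have hsq1 : 1 ≤ Real.sqrt t := by rw [Real.one_le_sqrt]; exact htr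
  have hsp : 0 < Real.sqrt t := by linarith
  have hsr : (0 : ℝ) ≤ (s : ℝ) / t := by positivity
  have hlog : (1 / 2 : ℝ) ≤ Real.log (2 + (s : ℝ) / t) :=
    log_two_lower.trans (Real.log_le_log (by norm_num) (by linarith))
  have hconv : ∀ x : Fin n → ℝ, (∀ i, x i = 1 ∨ x i = -1) →
      (∀ j, |∑ i ∈ S j, (x i - x₀ i)| ≤
        (3 * C + 4 * t0) * Real.sqrt t * Real.log (2 + (s : ℝ) / t)) →
      ∃ χ : Fin n → ℤ, (∀ i, χ i = 1 ∨ χ i = -1) ∧
        ∀ j : Fin m, |∑ i ∈ S j, ((χ i : ℝ) - x₀ i)| ≤
          (3 * C + 4 * t0) * Real.sqrt t * Real.log (2 + (s : ℝ) / t) := by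
    intro x h1 h2
    have e0 : ∀ i, (((if x i = 1 then 1 else -1 : ℤ)) : ℝ) = x i := by
      intro i
      rcases h1 i with h | h
      · rw [h]; simp
      · rw [h]; norm_num
    refine ⟨fun i => if x i = 1 then 1 else -1, fun i => ?_, fun j => ?_⟩
    · by_cases h : x i = 1
      · left; simp [h]
      · right; simp [h]
    · simp only [e0]
      exact h2 j
  rcases le_or_gt t0 (t : ℝ) with hbig | hsmall
  · set A : Fin m → Fin n → ℝ := fun j i => if i ∈ S j then (Real.sqrt t)⁻¹ else 0 with hA
    have hsqi : ((Real.sqrt t)⁻¹) ^ 2 * t = 1 := by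
      rw [inv_pow, Real.sq_sqrt htp.le, inv_mul_cancel₀ htp.ne']
    have hsqi' : ((Real.sqrt t)⁻¹) ^ 2 = (t : ℝ)⁻¹ := by
      rw [inv_pow, Real.sq_sqrt htp.le]
    have hF : FlatE (t : ℝ) A := by
      refine ⟨fun j i => ?_, fun i => ?_⟩
      · by_cases h : i ∈ S j
        · right
          simp only [hA, h, if_true]
          exact hsqi
        · left
          simp only [hA, h, if_false]
      · have h1 : ∀ j, A j i ^ 2 = if i ∈ S j then (t : ℝ)⁻¹ else 0 := by
          intro j
          simp only [hA]
          split_ifs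
          · exact hsqi'
          · norm_num
        simp_rw [h1]
        rw [← Finset.sum_filter, Finset.sum_const, nsmul_eq_mul, ← div_eq_mul_inv, div_le_one htp]
        exact_mod_cast hdeg i
    obtain ⟨x, h1, h2⟩ := hmain t hbig (Fin n) (Fin m) A hF x₀ hx (max 1 ((s : ℝ) / t))
      (le_max_left _ _) (by
        intro j
        have h3 : ∀ i, A j i ^ 2 = if i ∈ S j then (t : ℝ)⁻¹ else 0 := by
          intro i
          simp only [hA]
          split_ifs
          · exact hsqi'
          · norm_num
        simp_rw [h3]
        rw [Finset.sum_ite_mem, Finset.univ_inter, Finset.sum_const, nsmul_eq_mul,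
          ← div_eq_mul_inv]
        refine le_trans ?_ (le_max_right _ _)
        have h4 : ((S j).card : ℝ) ≤ s := by exact_mod_cast hsize j
        gcongr)
    refine hconv x h1 fun j => ?_
    have h3 := h2 j
    have e1 : ∑ i, A j i * (x i - x₀ i) = (Real.sqrt t)⁻¹ * ∑ i ∈ S j, (x i - x₀ i) := by
      rw [Finset.mul_sum]
      simp only [hA, ite_mul, zero_mul]
      rw [Finset.sum_ite_mem, Finset.univ_inter]
    rw [e1, abs_mul, abs_of_pos (inv_pos.2 hsp), inv_mul_le_iff₀ hsp] at h3
    have h4 : Real.log (max 1 ((s : ℝ) / t)) ≤ Real.log (2 + (s : ℝ) / t) := by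
      refine Real.log_le_log (lt_of_lt_of_le one_pos (le_max_left _ _)) ?_
      exact max_le (by linarith) (by linarith)
    have h5 : C * (1 + Real.log (max 1 ((s : ℝ) / t))) ≤
        (3 * C) * Real.log (2 + (s : ℝ) / t) := by nlinarith
    calc |∑ i ∈ S j, (x i - x₀ i)| ≤
          Real.sqrt t * (C * (1 + Real.log (max 1 ((s : ℝ) / t)))) := h3
      _ ≤ Real.sqrt t * ((3 * C) * Real.log (2 + (s : ℝ) / t)) :=
          mul_le_mul_of_nonneg_left h5 hsp.le
      _ = (3 * C) * Real.sqrt t * Real.log (2 + (s : ℝ) / t) := by ring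
      _ ≤ (3 * C + 4 * t0) * Real.sqrt t * Real.log (2 + (s : ℝ) / t) := by
          have h6 : 0 ≤ Real.sqrt t * Real.log (2 + (s : ℝ) / t) := by positivity
          nlinarith
  · obtain ⟨x, h1, -, h2⟩ := Pool.Agent.TH288.BF.bf_round S t hdeg
      (univ.filter (fun j => |x₀ j| ≠ 1)).card x₀ hx le_rfl
    refine hconv x h1 fun j => ?_
    refine (h2 j).trans ?_
    have h6 : (1 : ℝ) * (1 / 2) ≤ Real.sqrt t * Real.log (2 + (s : ℝ) / t) :=
      mul_le_mul hsq1 hlog (by norm_num) hsp.le
    have h7 : 0 ≤ 3 * C * (Real.sqrt t * Real.log (2 + (s : ℝ) / t)) := by positivity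
    nlinarith

end Pool.Agent.Results.MP_e8ee11_co.LogOfSetSize
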