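import Pool.Agent.K4H87.BF.Disc
import Pool.Agent.K4H87.BF.Half

set_option autoImplicit false

/-!
# Beck–Fiala for set systems with few crossings; points and half-planes

(1) Let the points `1, …, n` be placed at the vertices of a connected graph (several points may be
at one vertex, some vertices may be empty), and let every set of a set system of maximum degree at
most `t` consist of the points at a set `X j` of vertices with at most `e` boundary edges. Then the
discrepancy is at most `C √t log (2 + e / t)`. The sets may have any size. In particular it is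
`O(√t)` if every set has `O(t)` boundary edges in some tree on the points, for example if every set
is a union of `O(t)` intervals of a linear order.

(2) If every one of `n` points of the plane is in at most `t` of `m` closed half-planes, then the
points have a colouring of discrepancy at most `C √t` in all these half-planes.

Proof. (1) The points can be paired up (one may be left) such that at most `e` pairs are separated by
`X j`, for all `j`: a rooted spanning tree is pruned from its leaves. Both points of a pair get
opposite colours, so that only separated pairs count for a set; this is a system of maximum degree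
at most `2 t` with sets of size at most `e`, to which the bound `LogOfSetSize` applies. (2) The
points are moved into general position without change of the system. The cells of the arrangement
which are in at most `2 t` half-planes contain all segments between the points, and every boundary
line meets at most `4 t + 1` of their edges.
-/

open Finset

namespace Pool.Agent.Results.MP_e8ee11_co.FewCrossings

open Pool.Agent.K4H87.BF

theorem result :
    (∃ C : ℝ, ∀ (n m t e : ℕ) (U : Type) [Fintype U] (G : SimpleGraph U) (f : Fin n → U)
      (X : Fin m → Set U) (S : Fin m → Finset (Fin n)), 1 ≤ t → G.Connected →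
      (∀ j i, i ∈ S j ↔ f i ∈ X j) →
      (∀ i : Fin n, (univ.filter (fun j : Fin m => i ∈ S j)).card ≤ t) →
      (∀ j : Fin m, {p : U × U | p.1 ∈ X j ∧ p.2 ∉ X j ∧ G.Adj p.1 p.2}.ncard ≤ e) →
      ∃ χ : Fin n → ℤ, (∀ i, χ i = 1 ∨ χ i = -1) ∧
        ∀ j : Fin m, ((|∑ i ∈ S j, χ i| : ℤ) : ℝ) ≤
          C * Real.sqrt t * Real.log (2 + (e : ℝ) / t)) ∧
    (∃ C : ℝ, ∀ (n m t : ℕ) (p : Fin n → ℝ × ℝ) (a b c : Fin m → ℝ)
      (S : Fin m → Finset (Fin n)),
      (∀ j i, i ∈ S j ↔ c j ≤ a j * (p i).1 + b j * (p i).2) →
      (∀ i : Fin n, (univ.filter (fun j : Fin m => i ∈ S j)).card ≤ t) →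
      ∃ χ : Fin n → ℤ, (∀ i, χ i = 1 ∨ χ i = -1) ∧
        ∀ j : Fin m, ((|∑ i ∈ S j, χ i| : ℤ) : ℝ) ≤ C * Real.sqrt t) := by
  classical
  obtain ⟨C, hC, hmain⟩ := disc_of_pairing
  constructor
  · refine ⟨C, fun n m t e U _ G f X S ht hG hS hdeg he => ?_⟩
    have hU : Nonempty U := hG.nonempty
    obtain ⟨r⟩ := hU
    obtain ⟨μ, h1, h2, h3⟩ := pairing G r f (fun i => hG.preconnected r (f i))
    refine hmain n m t e S ht hdeg μ h1 h2 fun j => ?_
    have h4 := h3 (fun u => decide (u ∈ X j))
    have h5 : {p : U × U | decide (p.1 ∈ X j) = true ∧ decide (p.2 ∈ X j) = false ∧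
        G.Adj p.1 p.2} = {p : U × U | p.1 ∈ X j ∧ p.2 ∉ X j ∧ G.Adj p.1 p.2} := by
      ext p
      simp only [Set.mem_ofPred_eq, decide_eq_true_eq, decide_eq_false_iff_not]
    rw [h5] at h4
    have h6 : univ.filter (fun i => decide (f i ∈ X j) = true ∧
        decide (f (μ i) ∈ X j) = false) = (S j).filter (fun i => μ i ∉ S j) := by
      ext i
      simp only [Finset.mem_filter, Finset.mem_univ, true_and, decide_eq_true_eq,
        decide_eq_false_iff_not, hS]
    rw [h6] at h4
    exact h4.trans (he j)
  · refine ⟨2 * C, fun n m t p a b c S hS hdeg => ?_⟩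
    rcases Nat.eq_zero_or_pos t with ht | ht
    · -- all sets are empty
      subst ht
      refine ⟨fun _ => 1, fun _ => Or.inl rfl, fun j => ?_⟩
      have : S j = ∅ := by
        rw [Finset.eq_empty_iff_forall_notMem]
        intro i hi
        have h1 := hdeg i
        rw [Nat.le_zero, Finset.card_eq_zero] at h1
        have h2 : j ∈ univ.filter (fun j : Fin m => i ∈ S j) :=
          Finset.mem_filter.2 ⟨Finset.mem_univ _, hi⟩
        rw [h1] at h2
        exact absurd h2 (Finset.notMem_empty _)
      rw [this]
      simp
    obtain ⟨μ, h1, h2, h3⟩ := half_pairing p a b c S hS hdeg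
    obtain ⟨χ, h4, h5⟩ := hmain n m t (4 * t + 1) S ht hdeg μ h1 h2 h3
    refine ⟨χ, h4, fun j => (h5 j).trans ?_⟩
    have htr : (1 : ℝ) ≤ t := by exact_mod_cast ht
    have htp : (0 : ℝ) < t := by linarith
    have h6 : Real.log (2 + ((4 * t + 1 : ℕ) : ℝ) / t) ≤ 2 := by
      have h7 : ((4 * t + 1 : ℕ) : ℝ) / t ≤ 5 := by
        rw [div_le_iff₀ htp]
        push_cast
        linarith
      have h8 : Real.log (2 + ((4 * t + 1 : ℕ) : ℝ) / t) ≤ Real.log 7 :=
        Real.log_le_log (by positivity) (by linarith)
      have h9 : Real.log 7 ≤ 2 := by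
        rw [Real.log_le_iff_le_exp (by norm_num)]
        have h10 : (2.7182818283 : ℝ) < Real.exp 1 := Real.exp_one_gt_d9
        have h11 : Real.exp 2 = Real.exp 1 * Real.exp 1 := by
          rw [← Real.exp_add]; norm_num
        rw [h11]
        nlinarith
      linarith
    have h7 : 0 ≤ C * Real.sqrt t := by positivity
    calc C * Real.sqrt t * Real.log (2 + ((4 * t + 1 : ℕ) : ℝ) / t)
        ≤ C * Real.sqrt t * 2 := mul_le_mul_of_nonneg_left h6 h7
      _ = 2 * C * Real.sqrt t := by ring

end Pool.Agent.Results.MP_e8ee11_co.FewCrossings
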