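import Pool.Agent.K4H87.BF.RectR

set_option autoImplicit false

/-!
# Beck–Fiala for set systems with linearly many cells; points and non-crossing rectangles

(1) Let a set system of maximum degree at most `t` be such that every subfamily `A` divides the
ground set into at most `L |A| + 1` cells (a cell: the points which are in the same sets of `A`).
Then the discrepancy is at most `C √t log (2 + (L / t) log (1 + L) log (1 + t))`, whatever the numbers
of points and of sets and the sizes of the sets. So it is `O(√t)` for `L ≤ t / log² t`,
`O(√t log log t)` for `L = O(t)` and `O(√t log t)` for `L ≤ t ^ O(1)`.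

(2) If every one of `n` points of the plane is in at most `t` of `m` closed axis-parallel rectangles,
no two of which cross (for example squares of arbitrary sizes), then the points have a colouring of
discrepancy at most `C √t log (2 + log (1 + t))` in all these rectangles.

Proof. (1) For every weighting of the sets a greedy spanning tree on the points has small average
crossing number: Haussler's packing argument is applied to a random sample of the sets, with
truncation at weights below `1 / t` of a distance, so that only `log t` dyadic scales matter for each
set. By linear programming duality some convex combination of spanning trees is crossed at most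
`O(L log L log t)` times by every set; a set crosses an edge only if it contains one of its ends, so
every edge is crossed by at most `2 t` sets and iterative rounding over the base polytope of the
graphic matroid gives one spanning tree with at most `O(L log L log t) + 2 t` crossings per set. The
points are paired up along the tree, and `LogOfSetSize` is applied to the remainder. (2) A cell of
depth at most `t` is charged to its lower left vertex; one of two rectangles which meet at the vertex
is such that at most `t + 1` shallow vertices of the same type are on its side.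
-/

open Finset

namespace Pool.Agent.Results.MP_e8ee11_co.LinearCells

open Pool.Agent.K4H87.BF

theorem result :
    (∃ C : ℝ, ∀ (n m t L : ℕ) (S : Fin m → Finset (Fin n)), 1 ≤ t →
      (∀ i : Fin n, (univ.filter (fun j : Fin m => i ∈ S j)).card ≤ t) →
      (∀ A : Finset (Fin m), (univ.image (fun i : Fin n => A.filter (fun j => i ∈ S j))).card ≤
        L * A.card + 1) →
      ∃ χ : Fin n → ℤ, (∀ i, χ i = 1 ∨ χ i = -1) ∧
        ∀ j : Fin m, ((|∑ i ∈ S j, χ i| : ℤ) : ℝ) ≤
          C * Real.sqrt t * Real.log (2 + (L : ℝ) / t * Real.log (1 + L) * Real.log (1 + t))) ∧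
    (∃ C : ℝ, ∀ (n m t : ℕ) (p : Fin n → ℝ × ℝ) (l r b u : Fin m → ℝ)
      (S : Fin m → Finset (Fin n)),
      (∀ j i, i ∈ S j ↔ (l j ≤ (p i).1 ∧ (p i).1 ≤ r j) ∧ b j ≤ (p i).2 ∧ (p i).2 ≤ u j) →
      (∀ i j, ¬ (l i < l j ∧ r j < r i ∧ b j < b i ∧ u i < u j)) →
      (∀ i : Fin n, (univ.filter (fun j : Fin m => i ∈ S j)).card ≤ t) →
      ∃ χ : Fin n → ℤ, (∀ i, χ i = 1 ∨ χ i = -1) ∧
        ∀ j : Fin m, ((|∑ i ∈ S j, χ i| : ℤ) : ℝ) ≤
          C * Real.sqrt t * Real.log (2 + Real.log (1 + t))) := by
  classical
  obtain ⟨C, hC, hmain⟩ := cells_disc
  constructor
  · exact ⟨C, hmain⟩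
  · refine ⟨9 * C, fun n m t p l r b u S hS hcr hdeg => ?_⟩
    rcases Nat.eq_zero_or_pos t with ht | ht
    · -- all sets are empty
      subst ht
      refine ⟨fun _ => 1, fun _ => Or.inl rfl, fun j => ?_⟩
      have : S j = ∅ := by
        rw [Finset.eq_empty_iff_forall_notMem]
        intro i hi
        have h1 := hdeg i
        rw [Nat.le_zero, Finset.card_eq_zero] at h1
        have h2 : j ∈ univ.filter (fun j : Fin m => i ∈ S j) :=
          Finset.mem_filter.2 ⟨Finset.mem_univ _, hi⟩
        rw [h1] at h2
        exact absurd h2 (Finset.notMem_empty _)
      rw [this]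
      simp
    obtain ⟨χ, h4, h5⟩ := hmain n m t (17 * t) S ht hdeg (fun A => by
      refine (rect_cells_real n m t p l r b u S hS hcr hdeg A).trans ?_
      have : (8 * t + 9) * A.card ≤ 17 * t * A.card := Nat.mul_le_mul_right _ (by omega)
      omega)
    refine ⟨χ, h4, fun j => (h5 j).trans ?_⟩
    calc C * Real.sqrt t * Real.log (2 + ((17 * t : ℕ) : ℝ) / t *
          Real.log (1 + ((17 * t : ℕ) : ℝ)) * Real.log (1 + t))
        ≤ C * Real.sqrt t * (9 * Real.log (2 + Real.log (1 + t))) :=
          mul_le_mul_of_nonneg_left (rect_log t ht) (by positivity)
      _ = 9 * C * Real.sqrt t * Real.log (2 + Real.log (1 + t)) := by ring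

end Pool.Agent.Results.MP_e8ee11_co.LinearCells
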