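import Pool.Agent.K4H80.BF.Iter5
import Pool.Agent.TH288.BF.Round

set_option autoImplicit false

/-!
# Beck–Fiala: `O(√t)` when long sets are rare, for any number of points

Let `ε > 0`. For set systems of maximum degree `t` in which every element has at most `t^(3-ε)`
neighbours, counted with multiplicity (the sum of the sizes of the sets containing it), the
discrepancy is at most `C √t` if every element lies in at most `t / (log t)^2` sets with more
than `t` elements. In general, if every element lies in at most `δ k * t` sets with more than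
`2 ^ k * t` elements, the error in a set `S` is at most `C √t` times one plus the sum of the
square roots of the numbers `δ k` over the integers `k` with `2 ^ k * t < |S|`.

Proof. The phases of the starting file `LongSets` (a variational inequality with a Gaussian input,
and the local lemma) are run with a separate bound for the mass of every row. To give every row its
own barrier the row is scaled and repeated; the stiffness of the potential controls
long rows, and its mean value inequality lets short rows be repeated. A phase in which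
the long rows have mass `η` in every column moves long rows by only `√η` and a row of
mass `μ ≤ 1` by only `μ^(1/4)`, so that the total motion of a row is bounded by the sum of the
`√η` over the phases in which it is long.
-/

open Finset

namespace Pool.Agent.Results.MP_e8ee11_co.RareLongSets

open Pool.Agent.K4H80.BF Pool.Agent.R959.LD2 Pool.Agent.H320R2.LD

theorem log_two_lower : (1 / 2 : ℝ) ≤ Real.log 2 := by
  have h := Real.one_sub_inv_le_log_of_pos (show (0 : ℝ) < 2 by norm_num)
  norm_num at h ⊢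
  linarith

/-- number of dyadic scales -/
theorem count_scales (B : ℕ) (y : ℝ) (hy : 0 < y) :
    (((range B).filter (fun k => (2 : ℝ) ^ k < y)).card : ℝ) ≤ 1 + 2 * Real.log (max 1 y) := by
  have hm : 1 ≤ max 1 y := le_max_left _ _
  have hl : 0 ≤ Real.log (max 1 y) := Real.log_nonneg hm
  have hsub : (range B).filter (fun k => (2 : ℝ) ^ k < y) ⊆
      range (⌊2 * Real.log (max 1 y)⌋₊ + 1) := by
    intro k hk
    rw [mem_filter] at hk
    rw [mem_range, Nat.lt_succ_iff]
    apply Nat.le_floor
    have h1 : Real.log ((2 : ℝ) ^ k) ≤ Real.log (max 1 y) :=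
      Real.log_le_log (by positivity) (hk.2.le.trans (le_max_right _ _))
    rw [Real.log_pow] at h1
    have h2 := log_two_lower
    have h3 : (0 : ℝ) ≤ k := Nat.cast_nonneg _
    nlinarith
  have h1 := card_le_card hsub
  rw [card_range] at h1
  have h2 : (((range B).filter (fun k => (2 : ℝ) ^ k < y)).card : ℝ) ≤
      (⌊2 * Real.log (max 1 y)⌋₊ : ℝ) + 1 := by exact_mod_cast h1
  have h3 : (⌊2 * Real.log (max 1 y)⌋₊ : ℝ) ≤ 2 * Real.log (max 1 y) :=
    Nat.floor_le (by positivity)
  linarith

theorem general (ε : ℝ) (hε0 : 0 < ε) (hε1 : ε ≤ 1) :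
    ∃ C : ℝ, 0 < C ∧ ∀ (n m t : ℕ) (S : Fin m → Finset (Fin n)), 1 ≤ t →
      (∀ i : Fin n, (univ.filter (fun j : Fin m => i ∈ S j)).card ≤ t) →
      (∀ i : Fin n, ∑ j ∈ univ.filter (fun j : Fin m => i ∈ S j), ((S j).card : ℝ) ≤
        (t : ℝ) ^ (3 - ε)) →
      ∀ x₀ : Fin n → ℝ, (∀ i : Fin n, |x₀ i| ≤ 1) →
      ∀ δ : ℕ → ℝ, (∀ k, 0 ≤ δ k) →
      (∀ (k : ℕ) (i : Fin n),
        ((univ.filter (fun j : Fin m => i ∈ S j ∧ 2 ^ k * t < (S j).card)).card : ℝ) ≤ δ k * t) →
      ∃ χ : Fin n → ℤ, (∀ i, χ i = 1 ∨ χ i = -1) ∧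
        ∀ j : Fin m, |∑ i ∈ S j, ((χ i : ℝ) - x₀ i)| ≤
          C * Real.sqrt t * (1 + ∑ k ∈ (range (S j).card).filter
            (fun k => 2 ^ k * t < (S j).card), Real.sqrt (δ k)) := by
  classical
  obtain ⟨C, t0, hC, ht0, hmain⟩ := main6 ε hε0 hε1
  refine ⟨C + 2 * t0, by positivity, fun n m t S ht hdeg hnb x₀ hx δ hδ0 hδ => ?_⟩
  have htr : (1 : ℝ) ≤ t := by exact_mod_cast ht
  have htp : (0 : ℝ) < t := by linarith
  have hsq1 : 1 ≤ Real.sqrt t := by rw [Real.one_le_sqrt]; exact htr
  have hsp : 0 < Real.sqrt t := by linarith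
  have hconv : ∀ x : Fin n → ℝ, (∀ i, x i = 1 ∨ x i = -1) →
      (∀ j, |∑ i ∈ S j, (x i - x₀ i)| ≤
        (C + 2 * t0) * Real.sqrt t * (1 + ∑ k ∈ (range (S j).card).filter
            (fun k => 2 ^ k * t < (S j).card), Real.sqrt (δ k))) →
      ∃ χ : Fin n → ℤ, (∀ i, χ i = 1 ∨ χ i = -1) ∧
        ∀ j : Fin m, |∑ i ∈ S j, ((χ i : ℝ) - x₀ i)| ≤
          (C + 2 * t0) * Real.sqrt t * (1 + ∑ k ∈ (range (S j).card).filter
            (fun k => 2 ^ k * t < (S j).card), Real.sqrt (δ k)) := by
    intro x h1 h2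
    have e0 : ∀ i, (((if x i = 1 then 1 else -1 : ℤ)) : ℝ) = x i := by
      intro i
      rcases h1 i with h | h
      · rw [h]; simp
      · rw [h]; norm_num
    refine ⟨fun i => if x i = 1 then 1 else -1, fun i => ?_, fun j => ?_⟩
    · by_cases h : x i = 1
      · left; simp [h]
      · right; simp [h]
    · simp only [e0]
      exact h2 j
  have hsum0 : ∀ j : Fin m, 0 ≤ ∑ k ∈ (range (S j).card).filter
      (fun k => 2 ^ k * t < (S j).card), Real.sqrt (δ k) :=
    fun j => sum_nonneg fun k _ => Real.sqrt_nonneg _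
  rcases le_or_gt t0 (t : ℝ) with hbig | hsmall
  · set A : Fin m → Fin n → ℝ := fun j i => if i ∈ S j then (Real.sqrt t)⁻¹ else 0 with hA
    have hsqi : ((Real.sqrt t)⁻¹) ^ 2 * t = 1 := by
      rw [inv_pow, Real.sq_sqrt htp.le, inv_mul_cancel₀ htp.ne']
    have hsqi' : ((Real.sqrt t)⁻¹) ^ 2 = (t : ℝ)⁻¹ := by
      rw [inv_pow, Real.sq_sqrt htp.le]
    have hA2 : ∀ j i, A j i ^ 2 = if i ∈ S j then (t : ℝ)⁻¹ else 0 := by
      intro j i
      simp only [hA]
      split_ifs
      · exact hsqi'
      · norm_num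
    have hF : FlatE (t : ℝ) A := by
      refine ⟨fun j i => ?_, fun i => ?_⟩
      · by_cases h : i ∈ S j
        · right
          simp only [hA, h, if_true]
          exact hsqi
        · left
          simp only [hA, h, if_false]
      · simp_rw [hA2]
        rw [← Finset.sum_filter, Finset.sum_const, nsmul_eq_mul, ← div_eq_mul_inv, div_le_one htp]
        exact_mod_cast hdeg i
    have hmass : ∀ j, ∑ i, A j i ^ 2 = ((S j).card : ℝ) / t := by
      intro j
      simp_rw [hA2]
      rw [Finset.sum_ite_mem, Finset.univ_inter, Finset.sum_const, nsmul_eq_mul,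
        ← div_eq_mul_inv]
    -- sizes of the sets
    have hcard : ∀ j, ((S j).card : ℝ) ≤ (t : ℝ) ^ (3 - ε) := by
      intro j
      rcases (S j).eq_empty_or_nonempty with h | ⟨i, hi⟩
      · rw [h]
        simp only [card_empty, Nat.cast_zero]
        exact Real.rpow_nonneg htp.le _
      · refine le_trans ?_ (hnb i)
        exact single_le_sum (f := fun j => ((S j).card : ℝ)) (fun j _ => Nat.cast_nonneg _)
          (mem_filter.2 ⟨mem_univ _, hi⟩)
    have habs : ∀ j i, |A j i| = if i ∈ S j then (Real.sqrt t)⁻¹ else 0 := by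
      intro j i
      simp only [hA]
      split_ifs
      · exact abs_of_pos (inv_pos.2 hsp)
      · exact abs_zero
    have hop : ∀ x : Fin n → ℝ, ∑ j, (∑ i, |A j i| * |x i|) ^ 2 ≤
        (t : ℝ) ^ (2 - ε) * nsq x := by
      intro x
      have h1 : ∀ j, (∑ i, |A j i| * |x i|) ^ 2 ≤
          ∑ i, if i ∈ S j then ((S j).card : ℝ) * (t : ℝ)⁻¹ * x i ^ 2 else 0 := by
        intro j
        have e1 : ∑ i, |A j i| * |x i| = (Real.sqrt t)⁻¹ * ∑ i ∈ S j, |x i| := by
          rw [Finset.mul_sum]
          simp only [habs, ite_mul, zero_mul]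
          rw [Finset.sum_ite_mem, Finset.univ_inter]
        have e2 : (∑ i ∈ S j, |x i|) ^ 2 ≤ ((S j).card : ℝ) * ∑ i ∈ S j, x i ^ 2 := by
          have := sq_sum_le_card_mul_sum_sq (s := S j) (f := fun i => |x i|)
          simpa only [sq_abs] using this
        rw [e1, mul_pow, hsqi', Finset.sum_ite_mem, Finset.univ_inter, ← Finset.mul_sum]
        calc (t : ℝ)⁻¹ * (∑ i ∈ S j, |x i|) ^ 2
            ≤ (t : ℝ)⁻¹ * (((S j).card : ℝ) * ∑ i ∈ S j, x i ^ 2) :=
              mul_le_mul_of_nonneg_left e2 (inv_nonneg.2 htp.le)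
          _ = _ := by ring
      calc ∑ j, (∑ i, |A j i| * |x i|) ^ 2
          ≤ ∑ j, ∑ i, (if i ∈ S j then ((S j).card : ℝ) * (t : ℝ)⁻¹ * x i ^ 2 else 0) :=
            Finset.sum_le_sum fun j _ => h1 j
        _ = ∑ i, ((∑ j ∈ univ.filter (fun j : Fin m => i ∈ S j), ((S j).card : ℝ)) *
              ((t : ℝ)⁻¹ * x i ^ 2)) := by
            rw [Finset.sum_comm]
            refine Finset.sum_congr rfl fun i _ => ?_
            rw [Finset.sum_mul, Finset.sum_filter]
            refine Finset.sum_congr rfl fun j _ => ?_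
            split_ifs <;> ring
        _ ≤ ∑ i, ((t : ℝ) ^ (3 - ε) * ((t : ℝ)⁻¹ * x i ^ 2)) :=
            Finset.sum_le_sum fun i _ => mul_le_mul_of_nonneg_right (hnb i)
              (mul_nonneg (inv_nonneg.2 htp.le) (sq_nonneg _))
        _ = (t : ℝ) ^ (2 - ε) * ∑ i, x i ^ 2 := by
            rw [Finset.mul_sum]
            refine Finset.sum_congr rfl fun i _ => ?_
            have : (t : ℝ) ^ (3 - ε) = (t : ℝ) ^ (2 - ε) * t := by
              rw [← Real.rpow_add_one htp.ne']
              congr 1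
              ring
            rw [this]
            field_simp
        _ = _ := rfl
    obtain ⟨x, h1, h2⟩ := hmain t hbig (Fin n) (Fin m) A δ hF hop (by
        intro j
        rw [hmass, div_le_iff₀ htp]
        refine (hcard j).trans ?_
        calc (t : ℝ) ^ (3 - ε) ≤ (t : ℝ) ^ (3 : ℝ) :=
              Real.rpow_le_rpow_of_exponent_le htr (by linarith)
          _ = (t : ℝ) ^ 2 * t := by
              rw [show (3 : ℝ) = ((3 : ℕ) : ℝ) by norm_num, Real.rpow_natCast]
              ring) hδ0 (by
        intro k i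
        have h3 : ∑ j ∈ univ.filter (fun j => (2 : ℝ) ^ k < ∑ v, A j v ^ 2), A j i ^ 2 =
            ((univ.filter (fun j : Fin m => i ∈ S j ∧ 2 ^ k * t < (S j).card)).card : ℝ) *
              (t : ℝ)⁻¹ := by
          simp_rw [hmass, hA2]
          rw [← Finset.sum_filter, Finset.sum_const, nsmul_eq_mul, Finset.filter_filter]
          congr 3
          ext j
          simp only [mem_filter, mem_univ, true_and]
          rw [lt_div_iff₀ htp, and_comm]
          refine and_congr_right fun _ => ?_
          exact_mod_cast Iff.rfl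
        rw [h3, ← div_eq_mul_inv, div_le_iff₀ htp]
        exact hδ k i) x₀ hx
    refine hconv x h1 fun j => ?_
    have hM : ∑ v, A j v ^ 2 ≤ (2 : ℝ) ^ (S j).card := by
      rw [hmass, div_le_iff₀ htp]
      have h4 : ((S j).card : ℝ) ≤ (2 : ℝ) ^ (S j).card := by
        exact_mod_cast (Nat.lt_two_pow_self (n := (S j).card)).le
      have h5 : (0 : ℝ) ≤ (2 : ℝ) ^ (S j).card := by positivity
      nlinarith
    have h3 := h2 j (S j).card hM
    have e1 : ∑ i, A j i * (x i - x₀ i) = (Real.sqrt t)⁻¹ * ∑ i ∈ S j, (x i - x₀ i) := by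
      rw [Finset.mul_sum]
      simp only [hA, ite_mul, zero_mul]
      rw [Finset.sum_ite_mem, Finset.univ_inter]
    rw [e1, abs_mul, abs_of_pos (inv_pos.2 hsp), inv_mul_le_iff₀ hsp] at h3
    have e2 : ∑ k ∈ range (S j).card, (if (2 : ℝ) ^ k < ∑ v, A j v ^ 2 then Real.sqrt (δ k)
        else 0) = ∑ k ∈ (range (S j).card).filter
            (fun k => 2 ^ k * t < (S j).card), Real.sqrt (δ k) := by
      rw [Finset.sum_filter]
      refine Finset.sum_congr rfl fun k _ => ?_
      rw [hmass]
      refine if_congr ?_ rfl rfl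
      rw [lt_div_iff₀ htp]
      exact_mod_cast Iff.rfl
    rw [e2] at h3
    have h4 := hsum0 j
    have h6 : 0 ≤ Real.sqrt t * (1 + ∑ k ∈ (range (S j).card).filter
            (fun k => 2 ^ k * t < (S j).card), Real.sqrt (δ k)) := by positivity
    nlinarith
  · obtain ⟨x, h1, -, h2⟩ := Pool.Agent.TH288.BF.bf_round S t hdeg
      (univ.filter (fun j => |x₀ j| ≠ 1)).card x₀ hx le_rfl
    refine hconv x h1 fun j => ?_
    refine (h2 j).trans ?_
    have h4 := hsum0 j
    have h6 : (1 : ℝ) ≤ Real.sqrt t * (1 + ∑ k ∈ (range (S j).card).filter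
            (fun k => 2 ^ k * t < (S j).card), Real.sqrt (δ k)) := by nlinarith
    nlinarith

theorem result (ε : ℝ) (hε : 0 < ε) :
    ∃ C : ℝ, 0 < C ∧ ∀ (n m t : ℕ) (S : Fin m → Finset (Fin n)), 1 ≤ t →
      (∀ i : Fin n, (univ.filter (fun j : Fin m => i ∈ S j)).card ≤ t) →
      (∀ i : Fin n, ∑ j ∈ univ.filter (fun j : Fin m => i ∈ S j), ((S j).card : ℝ) ≤
        (t : ℝ) ^ (3 - ε)) →
      ∀ x₀ : Fin n → ℝ, (∀ i : Fin n, |x₀ i| ≤ 1) →
      -- few long sets at every element: the Beck–Fiala bound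
      ((∀ i : Fin n, ((univ.filter (fun j : Fin m => i ∈ S j ∧ t < (S j).card)).card : ℝ) *
          Real.log t ^ 2 ≤ t) →
        ∃ χ : Fin n → ℤ, (∀ i, χ i = 1 ∨ χ i = -1) ∧
          ∀ j : Fin m, |∑ i ∈ S j, ((χ i : ℝ) - x₀ i)| ≤ C * Real.sqrt t) ∧
      -- no condition on the long sets: the error of a set depends on its own size
      (∃ χ : Fin n → ℤ, (∀ i, χ i = 1 ∨ χ i = -1) ∧
          ∀ j : Fin m, |∑ i ∈ S j, ((χ i : ℝ) - x₀ i)| ≤
            C * Real.sqrt t * Real.log (2 + ((S j).card : ℝ) / t)) ∧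
      -- the general form
      (∀ δ : ℕ → ℝ, (∀ k, 0 ≤ δ k) →
        (∀ (k : ℕ) (i : Fin n),
          ((univ.filter (fun j : Fin m => i ∈ S j ∧ 2 ^ k * t < (S j).card)).card : ℝ) ≤
            δ k * t) →
        ∃ χ : Fin n → ℤ, (∀ i, χ i = 1 ∨ χ i = -1) ∧
          ∀ j : Fin m, |∑ i ∈ S j, ((χ i : ℝ) - x₀ i)| ≤
            C * Real.sqrt t * (1 + ∑ k ∈ (range (S j).card).filter
              (fun k => 2 ^ k * t < (S j).card), Real.sqrt (δ k))) := by
  classical
  obtain ⟨C, hC, hgen⟩ := general (min ε 1) (lt_min hε one_pos) (min_le_right _ _)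
  refine ⟨12 * C, by positivity, fun n m t S ht hdeg hnb x₀ hx => ?_⟩
  have htr : (1 : ℝ) ≤ t := by exact_mod_cast ht
  have htp : (0 : ℝ) < t := by linarith
  have hsp : 0 ≤ Real.sqrt t := Real.sqrt_nonneg _
  have hnb' : ∀ i : Fin n, ∑ j ∈ univ.filter (fun j : Fin m => i ∈ S j), ((S j).card : ℝ) ≤
      (t : ℝ) ^ (3 - min ε 1) := fun i => (hnb i).trans
    (Real.rpow_le_rpow_of_exponent_le htr (by linarith [min_le_left ε 1]))
  have hG := hgen n m t S ht hdeg hnb' x₀ hx
  have hcnt : ∀ j : Fin m, (((range (S j).card).filter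
      (fun k => 2 ^ k * t < (S j).card)).card : ℝ) ≤
      1 + 2 * Real.log (max 1 (((S j).card : ℝ) / t)) := by
    intro j
    rcases Nat.eq_zero_or_pos (S j).card with h0 | h0
    · rw [h0]
      simp only [range_zero, filter_empty, card_empty, Nat.cast_zero, zero_div]
      have := Real.log_nonneg (le_max_left (1 : ℝ) 0)
      linarith
    · have h1 : (0 : ℝ) < ((S j).card : ℝ) / t := by positivity
      refine le_trans (le_of_eq ?_) (count_scales (S j).card _ h1)
      congr 2
      ext k
      simp only [mem_filter, mem_range]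
      rw [lt_div_iff₀ htp]
      refine and_congr_right fun _ => ?_
      exact_mod_cast Iff.rfl
  refine ⟨fun hrare => ?_, ?_, fun δ hδ0 hδ => ?_⟩
  · -- rare long sets
    rcases Nat.lt_or_ge 1 t with ht2 | ht1
    · have ht2r : (2 : ℝ) ≤ t := by exact_mod_cast ht2
      have hl : (1 / 2 : ℝ) ≤ Real.log t :=
        log_two_lower.trans (Real.log_le_log (by norm_num) ht2r)
      have hlp : 0 < Real.log t := by linarith
      obtain ⟨χ, h1, h2⟩ := hG (fun _ => (Real.log t ^ 2)⁻¹) (fun k => by positivity) (by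
        intro k i
        have h3 := hrare i
        have h4 : ((univ.filter (fun j : Fin m => i ∈ S j ∧ 2 ^ k * t < (S j).card)).card : ℝ) ≤
            ((univ.filter (fun j : Fin m => i ∈ S j ∧ t < (S j).card)).card : ℝ) := by
          refine Nat.cast_le.2 (card_le_card fun j hj => ?_)
          rw [mem_filter] at hj ⊢
          refine ⟨hj.1, hj.2.1, lt_of_le_of_lt ?_ hj.2.2⟩
          exact Nat.le_mul_of_pos_left t (by positivity)
        rw [inv_mul_eq_div, le_div_iff₀ (by positivity)]
        exact (mul_le_mul_of_nonneg_right h4 (sq_nonneg _)).trans h3)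
      refine ⟨χ, h1, fun j => (h2 j).trans ?_⟩
      rw [Finset.sum_const, nsmul_eq_mul, Real.sqrt_inv, Real.sqrt_sq hlp.le]
      have h3 := hcnt j
      have h4 : Real.log (max 1 (((S j).card : ℝ) / t)) ≤ 2 * Real.log t := by
        have h5 : ((S j).card : ℝ) ≤ (t : ℝ) ^ 3 := by
          rcases (S j).eq_empty_or_nonempty with h | ⟨i, hi⟩
          · rw [h]
            simp only [card_empty, Nat.cast_zero]
            positivity
          · have h6 : ((S j).card : ℝ) ≤ (t : ℝ) ^ (3 - ε) :=
              le_trans (single_le_sum (f := fun j => ((S j).card : ℝ))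
                (fun j _ => Nat.cast_nonneg _) (mem_filter.2 ⟨mem_univ _, hi⟩)) (hnb i)
            refine h6.trans ?_
            calc (t : ℝ) ^ (3 - ε) ≤ (t : ℝ) ^ (3 : ℝ) :=
                  Real.rpow_le_rpow_of_exponent_le htr (by linarith)
              _ = (t : ℝ) ^ 3 := by
                  rw [show (3 : ℝ) = ((3 : ℕ) : ℝ) by norm_num, Real.rpow_natCast]
        have h7 : max 1 (((S j).card : ℝ) / t) ≤ (t : ℝ) ^ 2 := by
          refine max_le (one_le_pow₀ htr) ?_
          rw [div_le_iff₀ htp]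
          calc ((S j).card : ℝ) ≤ (t : ℝ) ^ 3 := h5
            _ = (t : ℝ) ^ 2 * t := by ring
        have h8 := Real.log_le_log (lt_of_lt_of_le one_pos (le_max_left _ _)) h7
        rw [Real.log_pow] at h8
        exact_mod_cast h8
      have h5 : (((range (S j).card).filter (fun k => 2 ^ k * t < (S j).card)).card : ℝ) *
          (Real.log t)⁻¹ ≤ 6 := by
        rw [← div_eq_mul_inv, div_le_iff₀ hlp]
        linarith
      have h6 : 0 ≤ C * Real.sqrt t := by positivity
      calc C * Real.sqrt t * (1 + (((range (S j).card).filter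
            (fun k => 2 ^ k * t < (S j).card)).card : ℝ) * (Real.log t)⁻¹)
          ≤ C * Real.sqrt t * (1 + 6) := mul_le_mul_of_nonneg_left (by linarith) h6
        _ ≤ 12 * C * Real.sqrt t := by linarith
    · -- `t = 1`: all sets have at most one element
      have ht1' : t = 1 := le_antisymm ht1 ht
      obtain ⟨χ, h1, h2⟩ := hG (fun _ => 0) (fun k => le_rfl) (by
        intro k i
        rw [zero_mul]
        have h3 : univ.filter (fun j : Fin m => i ∈ S j ∧ 2 ^ k * t < (S j).card) = ∅ := by
          rw [filter_eq_empty_iff]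
          rintro j - ⟨hj, hj2⟩
          have h4 : ((S j).card : ℝ) ≤ (t : ℝ) ^ (3 - ε) :=
            le_trans (single_le_sum (f := fun j => ((S j).card : ℝ))
              (fun j _ => Nat.cast_nonneg _) (mem_filter.2 ⟨mem_univ _, hj⟩)) (hnb i)
          rw [ht1'] at h4
          simp only [Nat.cast_one, Real.one_rpow] at h4
          have h5 : (S j).card ≤ 1 := by exact_mod_cast h4
          have h6 : 1 ≤ 2 ^ k * t := Nat.mul_pos (by positivity) ht
          omega
        rw [h3]
        simp)
      refine ⟨χ, h1, fun j => (h2 j).trans ?_⟩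
      simp only [Real.sqrt_zero, Finset.sum_const_zero, add_zero, mul_one]
      have h6 : 0 ≤ C * Real.sqrt t := by positivity
      linarith
  · -- the bound for a set of given size
    obtain ⟨χ, h1, h2⟩ := hG (fun _ => 1) (fun k => zero_le_one) (by
      intro k i
      rw [one_mul]
      refine le_trans ?_ (Nat.cast_le.2 (hdeg i))
      exact Nat.cast_le.2 (card_le_card fun j hj => by
        rw [mem_filter] at hj ⊢
        exact ⟨hj.1, hj.2.1⟩))
    refine ⟨χ, h1, fun j => (h2 j).trans ?_⟩
    rw [Real.sqrt_one, Finset.sum_const, nsmul_eq_mul, mul_one]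
    have h3 := hcnt j
    have hr : (0 : ℝ) ≤ ((S j).card : ℝ) / t := by positivity
    have hlog : (1 / 2 : ℝ) ≤ Real.log (2 + ((S j).card : ℝ) / t) :=
      log_two_lower.trans (Real.log_le_log (by norm_num) (by linarith))
    have h4 : Real.log (max 1 (((S j).card : ℝ) / t)) ≤ Real.log (2 + ((S j).card : ℝ) / t) := by
      refine Real.log_le_log (lt_of_lt_of_le one_pos (le_max_left _ _)) ?_
      exact max_le (by linarith) (by linarith)
    have h6 : 0 ≤ C * Real.sqrt t := by positivity
    calc C * Real.sqrt t * (1 + (((range (S j).card).filter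
            (fun k => 2 ^ k * t < (S j).card)).card : ℝ))
        ≤ C * Real.sqrt t * (12 * Real.log (2 + ((S j).card : ℝ) / t)) :=
          mul_le_mul_of_nonneg_left (by linarith) h6
      _ = 12 * C * Real.sqrt t * Real.log (2 + ((S j).card : ℝ) / t) := by ring
  · obtain ⟨χ, h1, h2⟩ := hG δ hδ0 hδ
    refine ⟨χ, h1, fun j => (h2 j).trans ?_⟩
    have h3 : 0 ≤ ∑ k ∈ (range (S j).card).filter
        (fun k => 2 ^ k * t < (S j).card), Real.sqrt (δ k) :=
      sum_nonneg fun k _ => Real.sqrt_nonneg _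
    have h6 : 0 ≤ C * Real.sqrt t * (1 + ∑ k ∈ (range (S j).card).filter
        (fun k => 2 ^ k * t < (S j).card), Real.sqrt (δ k)) := by positivity
    linarith

end Pool.Agent.Results.MP_e8ee11_co.RareLongSets
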